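import Pool.Agent.MT100GO.Defs

/-! Statements of the modules of MT100-GEN, even weight (orthogonal case).  Paper: PAPER_MT100GO.md. -/

set_option autoImplicit false

namespace Pool.Agent.MT100GO

open Matrix Polynomial Pool.Agent.MT100 Pool.Agent.MT100G Pool.Agent.Helper78_MT

universe u v

/-! ### Chains of discs -/

/-- MON: the monodromy matrices form a group which preserves the pairing -/
def MonStmt : Prop :=
  ∀ (d : Type) [Fintype d] [DecidableEq d] (F : FamO d),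
    mon F.H F.N F.q F.B Set.univ ⊆ Aut F.J0 ∧
    (1 : Matrix d d ℂ) ∈ mon F.H F.N F.q F.B Set.univ ∧
    (∀ a ∈ mon F.H F.N F.q F.B Set.univ, ∀ b ∈ mon F.H F.N F.q F.B Set.univ,
      a * b ∈ mon F.H F.N F.q F.B Set.univ) ∧
    ∀ a ∈ mon F.H F.N F.q F.B Set.univ, a⁻¹ ∈ mon F.H F.N F.q F.B Set.univ

/-- HPL: the half plane -/
def HplStmt : Prop :=
  ∀ (d : Type) [Fintype d] [DecidableEq d] (F : FamO d), 3 ≤ Fintype.card d →
    ∃ m1 : ℝ, (∃ g ∈ mon F.H F.N F.q F.B {w | m1 < w.re}, ¬ Scal g) ∧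
      ∀ g ∈ mon F.H F.N F.q F.B {w | m1 + 1 < w.re}, Scal g

/-- TU1: the tuples form a group -/
def Tu1Stmt : Prop :=
  ∀ (d : Type) [Fintype d] [DecidableEq d] (F : FamO d) (ι : Type) [Fintype ι] (κ : ι → ℕ),
    (∀ t ∈ tup F.H F.N F.q F.B κ, ∀ i, t.1 i ∈ mon F.H F.N F.q F.B Set.univ) ∧
    ((fun _ => 1, 0) : (ι → Matrix d d ℂ) × ℤ) ∈ tup F.H F.N F.q F.B κ ∧
    (∀ t ∈ tup F.H F.N F.q F.B κ, ∀ t' ∈ tup F.H F.N F.q F.B κ,
      ((fun i => t.1 i * t'.1 i, t.2 + t'.2) : (ι → Matrix d d ℂ) × ℤ) ∈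
        tup F.H F.N F.q F.B κ) ∧
    ∀ t ∈ tup F.H F.N F.q F.B κ,
      ((fun i => (t.1 i)⁻¹, -t.2) : (ι → Matrix d d ℂ) × ℤ) ∈ tup F.H F.N F.q F.B κ

/-- TU2: every monodromy matrix of one translate occurs in a tuple -/
def Tu2Stmt : Prop :=
  ∀ (d : Type) [Fintype d] [DecidableEq d] (F : FamO d) (ι : Type) [Fintype ι] (κ : ι → ℕ) (i : ι),
    ∀ g ∈ mon F.H F.N F.q F.B Set.univ, ∃ t ∈ tup F.H F.N F.q F.B κ, t.1 i = g

/-- TU3: the loop in the half plane -/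
def Tu3Stmt : Prop :=
  ∀ (d : Type) [Fintype d] [DecidableEq d] (F : FamO d), 3 ≤ Fintype.card d →
    ∀ (ι : Type) [Fintype ι] (κ : ι → ℕ) (i : ι),
    ∃ t ∈ tup F.H F.N F.q F.B κ, ¬ Scal (t.1 i) ∧ ∀ i', κ i' < κ i → Scal (t.1 i')

/-! ### Groups -/

/-- SCL: a matrix of the orthogonal group which commutes with the unipotent matrices is a scalar, and
there is a unipotent matrix different from one -/
def SclStmt : Prop :=
  ∀ (d : Type) [Fintype d] [DecidableEq d] (J0 : Matrix d d ℚ), J0ᵀ = J0 → IsUnit J0.det →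
    3 ≤ Fintype.card d →
    (∀ a ∈ Aut J0, (∀ X : Matrix d d ℂ, X ^ 3 = 0 → Xᵀ * J0.map (algebraMap ℚ ℂ) +
      J0.map (algebraMap ℚ ℂ) * X = 0 → a * X = X * a) → Scal a) ∧
    (∀ X : Matrix d d ℂ, X ^ 3 = 0 → Xᵀ * J0.map (algebraMap ℚ ℂ) +
      J0.map (algebraMap ℚ ℂ) * X = 0 → ∀ s : ℂ,
        1 + s • X + (s ^ 2 / 2) • X ^ 2 ∈ SAut J0 ∧
        (1 + s • X + (s ^ 2 / 2) • X ^ 2) * (1 + (-s) • X + (s ^ 2 / 2) • X ^ 2) = 1) ∧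
    ∃ X : Matrix d d ℂ, X ≠ 0 ∧ X ^ 3 = 0 ∧ Xᵀ * J0.map (algebraMap ℚ ℂ) +
      J0.map (algebraMap ℚ ℂ) * X = 0

/-- SOI: the adjoint representation of the special orthogonal group is irreducible -/
def SoiStmt : Prop :=
  ∀ (d : Type) [Fintype d] [DecidableEq d] (J0 : Matrix d d ℚ), J0ᵀ = J0 → IsUnit J0.det →
    5 ≤ Fintype.card d → ∀ L : Submodule ℂ (Matrix d d ℂ), L ≠ ⊥ →
    (∀ X ∈ L, Xᵀ * J0.map (algebraMap ℚ ℂ) + J0.map (algebraMap ℚ ℂ) * X = 0) →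
    (∀ g ∈ SAut J0, ∀ X ∈ L, g * X * g⁻¹ ∈ L) →
    ∀ X : Matrix d d ℂ, Xᵀ * J0.map (algebraMap ℚ ℂ) + J0.map (algebraMap ℚ ℂ) * X = 0 → X ∈ L

/-- NRM: normal subgroups of Zariski dense subgroups of the special orthogonal group -/
def NrmStmt : Prop :=
  ∀ (d : Type) [Fintype d] [DecidableEq d] (J0 : Matrix d d ℚ), J0ᵀ = J0 → IsUnit J0.det →
    5 ≤ Fintype.card d → ∀ M Γ : Set (Matrix d d ℂ),
    (∀ f : MvPolynomial (d × d) ℂ, (∀ g ∈ M, pev g f = 0) → ∀ g ∈ SAut J0, pev g f = 0) →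
    M ⊆ Aut J0 → Γ ⊆ SAut J0 → 1 ∈ Γ → (∀ a ∈ Γ, ∀ b ∈ Γ, a * b ∈ Γ) → (∀ a ∈ Γ, a⁻¹ ∈ Γ) →
    (∀ m ∈ M, ∀ a ∈ Γ, m * a * m⁻¹ ∈ Γ) → (∃ a ∈ Γ, ¬ Scal a) →
    ∀ f : MvPolynomial (d × d) ℂ, (∀ g ∈ Γ, pev g f = 0) → ∀ g ∈ SAut J0, pev g f = 0

/-- COM: commutators -/
def ComStmt : Prop :=
  ∀ (d : Type) [Fintype d] [DecidableEq d] (J0 : Matrix d d ℚ), J0ᵀ = J0 → IsUnit J0.det →
    5 ≤ Fintype.card d → ∀ M : Set (Matrix d d ℂ),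
    (∀ f : MvPolynomial (d × d) ℂ, (∀ g ∈ M, pev g f = 0) → ∀ g ∈ SAut J0, pev g f = 0) →
    M ⊆ Aut J0 → ∀ a ∈ Aut J0, ¬ Scal a → ∃ m ∈ M, ¬ Scal (a * m * a⁻¹ * m⁻¹)

/-! ### Relations -/

/-- PRM: permanence of relations under continuation -/
def PrmStmt : Prop :=
  ∀ (d : Type) [Fintype d] [DecidableEq d] (F : FamO d) (ι : Type) [Fintype ι] (κ : ι → ℕ),
    ∃ R0 : ℝ, ∀ Φ : MvPolynomial (Bool ⊕ (ι × d × d)) ℂ,
      (∀ᶠ w : ℝ in Filter.atTop, MvPolynomial.eval (vr (w : ℂ) (Complex.log w)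
        fun i => YH F.H F.N ((w : ℂ) - κ i)) Φ = 0) →
      ∀ t ∈ tup F.H F.N F.q F.B κ, ∀ w : ℝ, R0 < w →
        MvPolynomial.eval (vr (w : ℂ) (Complex.log w + 2 * Real.pi * Complex.I * t.2)
          fun i => YH F.H F.N ((w : ℂ) - κ i) * t.1 i) Φ = 0

/-- PRS: relations persist under the product of the special orthogonal groups.  (In the proof the
groups `Γᵢ` consist of the `t.1 i`, `t` a tuple with `t.2 = 0`, all `t.1 i'` of determinant one and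
`t.1 i' = 1` if `κ i' < κ i`.) -/
def PrsStmt : Prop :=
  ∀ (d : Type) [Fintype d] [DecidableEq d] (F : FamO d), 5 ≤ Fintype.card d →
    ∀ (ι : Type) [Fintype ι] [DecidableEq ι] (κ : ι → ℕ), Function.Injective κ →
    ∃ R0 : ℝ, ∀ Φ : MvPolynomial (Bool ⊕ (ι × d × d)) ℂ,
      (∀ᶠ w : ℝ in Filter.atTop, MvPolynomial.eval (vr (w : ℂ) (Complex.log w)
        fun i => YH F.H F.N ((w : ℂ) - κ i)) Φ = 0) →
      ∀ w : ℝ, R0 < w → ∀ g : ι → Matrix d d ℂ, (∀ i, g i ∈ SAut F.J0) →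
        MvPolynomial.eval (vr (w : ℂ) (Complex.log w)
          fun i => YH F.H F.N ((w : ℂ) - κ i) * g i) Φ = 0

/-- FPS: formal relations persist -/
def FpsStmt : Prop :=
  ∀ (d : Type) [Fintype d] [DecidableEq d] (F : FamO d), 5 ≤ Fintype.card d →
    ∀ (ι : Type) [Fintype ι] [DecidableEq ι] (κ : ι → ℕ), Function.Injective κ → ∀ k : ℕ,
    ∃ R0 : ℝ, ∀ p : (ι × Fin k → d) → (ι × Fin k → d) → ℚ[X],
      ∑ β, ∑ α, ((p β α : ℚ[X]) : PowerSeries ℚ) * ∏ s, TgO F (κ s.1) (β s) (α s) = 0 →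
      ∀ w : ℝ, R0 < w → ∀ g : ι → Matrix d d ℂ, (∀ i, g i ∈ SAut F.J0) →
        ∑ β, ∑ α, (p β α).eval₂ (algebraMap ℚ ℂ) ((w : ℂ)⁻¹) *
          ∏ s, (tvO F (κ s.1) w * g s.1) (β s) (α s) = 0

/-- NUM: numerical relations at `1/n` persist under the product of the special orthogonal groups -/
def NumStmt : Prop :=
  ∀ (d : Type) [Fintype d] [DecidableEq d] (F : FamO d), 5 ≤ Fintype.card d →
    ∀ (ι : Type) [Fintype ι] [DecidableEq ι] (κ : ι → ℕ), Function.Injective κ → ∀ k : ℕ,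
    ∃ n0 : ℕ, ∀ n : ℕ, n0 ≤ n → ∀ c : (ι × Fin k → d) → (ι × Fin k → d) → ℚ,
      ∑ β, ∑ α, (c β α : ℂ) * ∏ s, tvO F (κ s.1) n (β s) (α s) = 0 →
      ∀ g : ι → Matrix d d ℂ, (∀ i, g i ∈ SAut F.J0) →
        ∑ β, ∑ α, (c β α : ℂ) * ∏ s, (tvO F (κ s.1) n * g s.1) (β s) (α s) = 0

/-- ELG: elimination of the unknown rational structure; windows and density -/
def ElgStmt : Prop :=
  ∀ (d : Type) [Fintype d] [DecidableEq d] (F : FamO d), 5 ≤ Fintype.card d →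
    ∀ (k : ℕ) (A : Set (Fin k → d)), ∃ n1 : ℕ → ℕ, ∀ P : Matrix d d ℂ, IsUnit P.det →
    ∀ S : Set ℕ, (∀ n ∈ S, ∃ t : (Fin k → d) → ℚ,
      (∀ a ∈ A, ∑ β, (t β : ℂ) * ∏ j, perO F P n (a j) (β j) = 0) ∧
      ∃ g ∈ SAut F.J0, ∃ a ∈ A,
        ∑ β, (t β : ℂ) * ∏ j, (P *ᵥ (YH F.H F.N n * g) (a j)) (β j) ≠ 0) →
      (∀ K n : ℕ, n1 K ≤ n →
        Nat.card {m : ℕ // m ∈ S ∧ n < m + K ∧ m ≤ n} ≤ (Fintype.card d ^ k) ^ 2) ∧
      DensZero S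

/-! ### Hodge structures and representations -/

/-- HDF: if the Mumford-Tate group is not the connected group of similitudes, there is a Hodge tensor
of degree four which is not invariant -/
def HdfStmt : Prop :=
  ∀ (n : Type) [Fintype n] [DecidableEq n] (w : ℕ) (E : Matrix n n ℚ)
    (V : ℕ → Submodule ℂ (n → ℂ)), Even w → PolHodge w E V → 5 ≤ Fintype.card n →
    (∃ p, w < 2 * p ∧ V p ≠ ⊥) →
    ¬ (∀ (K : Type u) [Field K] [CharZero K], mtGroup w V K = simO E K) →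
    ∃ t : (Fin 4 → n) → ℚ,
      (∀ (p : Fin 4 → ℕ) (x : Fin 4 → n → ℂ), (∀ j, x j ∈ V (p j)) → 2 * w < ∑ j, p j →
        ∑ β, (t β : ℂ) * ∏ j, x j (β j) = 0) ∧
      ∃ G ∈ SAut E, ∃ (p : Fin 4 → ℕ) (x : Fin 4 → n → ℂ), (∀ j, x j ∈ V (p j)) ∧
        2 * w < ∑ j, p j ∧ ∑ β, (t β : ℂ) * ∏ j, (G *ᵥ x j) (β j) ≠ 0

/-- LAD: big local monodromies, orthogonal case, any dimension at least five -/
def LadStmt : Prop :=
  ∀ (n : Type) [Fintype n] [DecidableEq n] (E : Matrix n n ℚ) (F : Type) (Γ : Type v)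
    [Field F] [CharZero F] [Group Γ] (ρ : Γ →* GL n F), Eᵀ = E → IsUnit E.det →
    5 ≤ Fintype.card n → BigMonodromy E ρ →
    ∀ (K : Type u) [Field K] [CharZero K] [Algebra F K], monodromy ρ K = simO E K

/-! ### Main theorem -/

/-- MAIN -/
def MainGOStmt : Prop :=
  ∀ (d : Type) [Fintype d] [DecidableEq d] (F : FamO d), 5 ≤ Fintype.card d →
    ∀ (w : ℕ) (lev : d → ℕ), (∃ a, w < 2 * lev a) →
    ∃ n1 : ℕ → ℕ, ∀ P : Matrix d d ℂ, IsUnit P.det →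
    ∃ S : Set ℕ, DensZero S ∧
      (∀ K n : ℕ, n1 K ≤ n →
        Nat.card {m : ℕ // m ∈ S ∧ n < m + K ∧ m ≤ n} ≤ (Fintype.card d ^ 4) ^ 2) ∧
      ∀ n : ℕ, n ∉ S → ∀ (E : Matrix d d ℚ) (V : ℕ → Submodule ℂ (d → ℂ)),
        PolHodge w E V → FlatO F P E → HasFilO F lev P n V →
        (∀ (K : Type u) [Field K] [CharZero K], mtGroup w V K = simO E K) ∧
        ∀ (ℓ : ℕ) [Fact ℓ.Prime] (Γ : Type v) [Group Γ] (ρ : Γ →* GL d ℚ_[ℓ]),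
          BigMonodromy E ρ → ∀ (K : Type u) [Field K] [CharZero K] [Algebra ℚ_[ℓ] K],
            monodromy ρ K = mtGroup w V K

end Pool.Agent.MT100GO
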