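import Pool.Agent.Helper97_MTG.Ass
import Pool.Agent.Helper11_MTG.Mon
import Pool.Agent.Helper19_MT100GO.Hpl
import Pool.Agent.Helper29_MTGO.Tu1
import Pool.Agent.Helper29_MTGO.Tup
import Pool.Agent.Helper29_MTGO.Prm
import Pool.Agent.Helper19_MT100GO.Prs
import Pool.Agent.Helper94_MT100GO.Nrm
import Pool.Agent.Helper94_MT100GO.Soi
import Pool.Agent.Helper34_GO.Com
import Pool.Agent.Helper47_MT100GO.Fps
import Pool.Agent.Helper2_MTGO.Num
import Pool.Agent.Helper29_MTGO.Elg
import Pool.Agent.Helper46_MTGO.Hdf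
import Pool.Agent.Helper17_MTB.LadGO
import Pool.Agent.Helper34_GO.Main

/-! Assembly of MT100-GEN, even weight. -/

set_option autoImplicit false

namespace Pool.Agent.MT100GO

open Matrix Polynomial Pool.Agent.MT100 Pool.Agent.Helper78_MT

universe u v

theorem mon_all : MonStmt := MT100G.H11.mon_go
theorem hpl_all : HplStmt := H19.hpl MT100G.H47.uni MT100G.H97.bas' mon_all
theorem tu1_all : Tu1Stmt := H29.tu1 mon_all
theorem tu2_all : Tu2Stmt := H29.tu2 MT100G.H67.ode MT100G.H47.uni MT100G.H97.bas' MT100G.H11.per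
theorem tu3_all : Tu3Stmt :=
  H29.tu3 MT100G.H67.ode MT100G.H47.uni MT100G.H97.bas' MT100G.H11.per hpl_all
theorem nrm_all : NrmStmt := H94.nrm H34.scl H94.soi
theorem com_all : ComStmt := H34.com H34.scl
theorem prm_all : PrmStmt := H29.prm MT100G.H97.bas'
theorem prs_all : PrsStmt := H19.prs mon_all tu1_all tu2_all tu3_all nrm_all com_all prm_all
theorem fps_all : FpsStmt := H47.fps MT100G.H97.bas' MT100G.H97.vag' prs_all MT100G.H97.eva'
theorem num_all : NumStmt :=
  Pool.Agent.Helper2_MTGO.num MT100G.H97.gfm' fps_all MT100.H27.trg MT100.H83.sys MT100G.H97.eva'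
theorem elg_all : ElgStmt := H29.elg num_all MT100G.H97.vag' MT100G.H97.bas'
theorem hdf_all : HdfStmt.{u} := H46.hdf nrm_all H94.soi
theorem lad_all : LadStmt.{u, v} := H17.lad

/-- the main theorem -/
theorem main_all : MainGOStmt.{u, v} := H34.main elg_all hdf_all lad_all

end Pool.Agent.MT100GO
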