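import Pool.Agent.MT100G.Stmts

/-! General one parameter families, even weight: symmetric pairing, monodromy Zariski dense in the
special orthogonal group. -/

set_option autoImplicit false

namespace Pool.Agent.MT100GO

open Matrix Pool.Agent.MT100 Pool.Agent.MT100G Pool.Agent.Helper78_MT

variable {d : Type*} [Fintype d] [DecidableEq d]

/-- the complex matrices of determinant one which preserve the bilinear form `J0` -/
def SAut (J0 : Matrix d d ℚ) : Set (Matrix d d ℂ) := {g | g ∈ Aut J0 ∧ g.det = 1}

/-- A one parameter family: a system of G-type over `ℚ(w)` with unipotent monodromy at infinity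
(`H` with inverse `K`, `N`, `q`, `B`), a symmetric flat pairing (`J / s` on the system, `J0` on the
solutions), and monodromy whose Zariski closure contains the special orthogonal group. -/
structure FamO (d : Type) [Fintype d] [DecidableEq d] where
  H : Matrix d d (PowerSeries ℚ)
  K : Matrix d d (PowerSeries ℚ)
  N : Matrix d d ℤ
  q : Polynomial ℤ
  B : Matrix d d (Polynomial ℤ)
  J : Matrix d d (Polynomial ℚ)
  s : Polynomial ℚ
  J0 : Matrix d d ℚ
  sys : GSys H K N q B
  s_ne : s ≠ 0
  symm : J0ᵀ = J0
  unit : IsUnit J0.det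
  pair : Hᵀ * J.map (fun p => (p : PowerSeries ℚ)) * H =
    (s : PowerSeries ℚ) • J0.map (fun x => PowerSeries.C x)
  flat : (N.map (fun x => (x : ℚ)))ᵀ * J0 + J0 * N.map (fun x => (x : ℚ)) = 0
  big : ∀ f : MvPolynomial (d × d) ℂ, (∀ g ∈ mon H N q B Set.univ, pev g f = 0) →
    ∀ g ∈ SAut J0, pev g f = 0

/-- the vector of the periods of the form with index `a` at the point `w`, for the rational structure
given by `P` -/
noncomputable def perO {d : Type} [Fintype d] [DecidableEq d] (F : FamO d) (P : Matrix d d ℂ)
    (w : ℂ) (a : d) : d → ℂ :=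
  P *ᵥ YH F.H F.N w a

/-- The Hodge filtration of `V` is given by the periods at `w`; the forms with index `a` and
`p ≤ lev a` span `Fᵖ`. -/
def HasFilO {d : Type} [Fintype d] [DecidableEq d] (F : FamO d) (lev : d → ℕ) (P : Matrix d d ℂ)
    (w : ℂ) (V : ℕ → Submodule ℂ (d → ℂ)) : Prop :=
  ∀ p : ℕ, (⨆ p' ∈ Set.Ici p, V p') = Submodule.span ℂ {y | ∃ a : d, p ≤ lev a ∧ y = perO F P w a}

/-- The rational form `E` is flat: up to a scalar it is the pairing of the family, for the rational
structure given by `P`. -/
def FlatO {d : Type} [Fintype d] [DecidableEq d] (F : FamO d) (P : Matrix d d ℂ)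
    (E : Matrix d d ℚ) : Prop :=
  ∃ c : ℂ, c ≠ 0 ∧ Pᵀ * E.map (algebraMap ℚ ℂ) * P = c • (F.J0⁻¹).map (algebraMap ℚ ℂ)

/-- The identity component of the group of similitudes of a symmetric form `E`, over `K`: the
similitudes whose determinant is the power `c ^ (r/2)` of the multiplier `c` if the dimension `r` is
even, and all similitudes if `r` is odd. -/
def simO {n : Type*} [Fintype n] [DecidableEq n] (E : Matrix n n ℚ) (K : Type*) [Field K]
    [CharZero K] : Set (Matrix n n K) :=
  {M | IsUnit M.det ∧ ∃ c : K, Mᵀ * E.map (algebraMap ℚ K) * M = c • E.map (algebraMap ℚ K) ∧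
    (Even (Fintype.card n) → M.det = c ^ (Fintype.card n / 2))}

/-- the translated fundamental matrix -/
noncomputable def TgO {d : Type} [Fintype d] [DecidableEq d] (F : FamO d) (κ : ℕ) :
    Matrix d d (PowerSeries ℚ) := TrG F.H F.N Polynomial.X κ

/-- its value at `1/w` -/
noncomputable def tvO {d : Type} [Fintype d] [DecidableEq d] (F : FamO d) (κ : ℕ) (w : ℝ) :
    Matrix d d ℂ := (TgO F κ).map (fun f => ((ev f w⁻¹ : ℝ) : ℂ))

end Pool.Agent.MT100GO
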